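import Mathlib

/-!
# `Int_K(A)` can be integrally closed although `A` is not integrally closed

Take `D = ℚ[t]` and `A = D[ε]`, `ε² = 0`. Since `D` contains an infinite field, `Int_K(A) = D[X]`,
which is integrally closed; but `ε/t` is integral over `D` and not in `A`.
-/

set_option autoImplicit false

open Polynomial TensorProduct

namespace Pool.Agent.Results.MP_f9f43c_al.DualNumbers

section Definitions

variable (D : Type*) [CommRing D] [IsDomain D] (A : Type*) [Ring A] [Algebra D A]

/-- The `K`-algebra `B = K ⊗_D A`, `K` the quotient field of `D`. -/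
abbrev B : Type _ := FractionRing D ⊗[D] A

/-- The canonical map `A → B`. -/
abbrev ι : A →ₐ[D] B D A := Algebra.TensorProduct.includeRight

/-- The ring `Int_K(A)` of all `f ∈ K[X]` with `f(a) ∈ A` for all `a ∈ A`. -/
noncomputable def IntK : Subring (FractionRing D)[X] where
  carrier := {f | ∀ a : A, aeval (ι D A a) f ∈ (ι D A).range}
  mul_mem' := fun hf hg a => by
    rw [map_mul]
    exact mul_mem (hf a) (hg a)
  one_mem' := fun a => by
    rw [map_one]
    exact one_mem _
  add_mem' := fun hf hg a => by
    rw [map_add]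
    exact add_mem (hf a) (hg a)
  zero_mem' := fun a => by
    rw [map_zero]
    exact zero_mem _
  neg_mem' := fun hf a => by
    rw [map_neg]
    exact neg_mem (hf a)

/-- The positive form of the question. -/
def Question : Prop :=
  ∀ (D : Type) [CommRing D] [IsDomain D] [IsIntegrallyClosed D] (A : Type) [Ring A] [Algebra D A],
    Function.Injective (algebraMap D A) → Module.IsTorsionFree D A → Module.Finite D A →
    IsIntegrallyClosed (IntK D A) →
    {b : B D A | IsIntegral D b} = ((ι D A).range : Set (B D A))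

end Definitions

/-- The base ring. -/
abbrev D : Type := ℚ[X]

/-- Its quotient field. -/
abbrev K : Type := FractionRing D

/-- The algebra of dual numbers. -/
abbrev A : Type := DualNumber D

/-- The map `B → K` which kills `ε`. -/
noncomputable def π : B D A →ₗ[D] K :=
  (TensorProduct.rid D K).toLinearMap ∘ₗ
    LinearMap.lTensor K (TrivSqZeroExt.fstHom D D D).toLinearMap

/-- The `ε`-coordinate. -/
noncomputable def ρ : B D A →ₗ[D] K :=
  (TensorProduct.rid D K).toLinearMap ∘ₗ LinearMap.lTensor K (TrivSqZeroExt.sndHom D D)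

lemma π_tmul (k : K) (a : A) : π (k ⊗ₜ a) = a.fst • k := by
  simp [π]

lemma ρ_tmul (k : K) (a : A) : ρ (k ⊗ₜ a) = a.snd • k := by
  simp [ρ]

/-- The image of `D[X]` in `K[X]`. -/
noncomputable abbrev DX : Subring K[X] := (mapRingHom (algebraMap D K)).range

lemma C_mem (d : D) : (C (algebraMap D K d) : K[X]) ∈ DX := ⟨C d, by simp⟩

lemma X_mem : (X : K[X]) ∈ DX := ⟨X, by simp⟩

/-- A polynomial with values in `D` at all natural numbers has coefficients in `D`. -/
lemma mem_DX_of_eval {f : K[X]} (h : ∀ n : ℕ, ∃ d : D, f.eval (n : K) = algebraMap D K d) :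
    f ∈ DX := by
  classical
  let v : ℕ → K := fun n => (n : K)
  let s : Finset ℕ := Finset.range (f.natDegree + 1)
  have hinj : Set.InjOn v s := fun i _ j _ hij => Nat.cast_injective hij
  have hdeg : f.degree < s.card := by
    rw [Finset.card_range]
    exact_mod_cast lt_of_le_of_lt degree_le_natDegree (by exact_mod_cast Nat.lt_succ_self _)
  rw [Lagrange.eq_interpolate hinj hdeg, Lagrange.interpolate_apply]
  refine sum_mem fun i _ => mul_mem ?_ ?_
  · obtain ⟨d, hd⟩ := h i
    change C (f.eval (i : K)) ∈ DX
    rw [hd]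
    exact C_mem d
  · unfold Lagrange.basis
    refine prod_mem fun j _ => ?_
    unfold Lagrange.basisDivisor
    refine mul_mem ?_ (sub_mem X_mem ?_)
    · have : (v i - v j)⁻¹ = algebraMap D K (C (((i : ℚ) - j)⁻¹)) := by
        have h1 : algebraMap D K (C (((i : ℚ) - j)⁻¹)) =
            ((algebraMap D K).comp (C : ℚ →+* D)) (((i : ℚ) - j)⁻¹) := rfl
        rw [h1, map_inv₀, map_sub, map_natCast, map_natCast]
      rw [this]
      exact C_mem _
    · have : v j = algebraMap D K (j : D) := by
        rw [map_natCast]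
      rw [this]
      exact C_mem _

lemma IntK_eq : IntK D A = DX := by
  apply le_antisymm
  · intro f hf
    refine mem_DX_of_eval fun n => ?_
    obtain ⟨a, ha⟩ := hf (n : A)
    refine ⟨a.fst, ?_⟩
    have h1 : aeval (ι D A (n : A)) f = (f.eval (n : K)) ⊗ₜ[D] (1 : A) := by
      have h2 : (ι D A (n : A)) = algebraMap K (B D A) (n : K) := by
        rw [map_natCast, map_natCast]
      rw [h2, aeval_algebraMap_apply_eq_algebraMap_eval]
      rfl
    rw [h1] at ha
    have h3 := congrArg π ha
    change π ((1 : K) ⊗ₜ[D] a) = _ at h3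
    rw [π_tmul, π_tmul] at h3
    rw [show (1 : A).fst = 1 from rfl, one_smul, Algebra.smul_def, mul_one] at h3
    exact h3.symm
  · rintro _ ⟨p, rfl⟩ a
    refine ⟨aeval a p, ?_⟩
    rw [coe_mapRingHom, aeval_map_algebraMap]
    exact (aeval_algHom_apply (ι D A) a p).symm

lemma isIntegrallyClosed_IntK : IsIntegrallyClosed (IntK D A) := by
  rw [IntK_eq]
  have hinj : Function.Injective (mapRingHom (algebraMap D K)) := by
    rw [coe_mapRingHom]
    exact map_injective _ (IsFractionRing.injective D K)
  exact IsIntegrallyClosed.of_equiv (RingEquiv.ofBijective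
    (mapRingHom (algebraMap D K)).rangeRestrict
    ⟨fun x y hxy => hinj (congrArg Subtype.val hxy), RingHom.rangeRestrict_surjective _⟩)

/-- **Negative answer to Q1.** -/
theorem result : ¬ Question := by
  intro h
  have h1 := h D A (by
      intro x y hxy
      exact congrArg TrivSqZeroExt.fst hxy)
    (inferInstanceAs (Module.IsTorsionFree D (D × D))) (inferInstanceAs (Module.Finite D (D × D)))
    isIntegrallyClosed_IntK
  have hb : ((algebraMap D K X)⁻¹ ⊗ₜ[D] (DualNumber.eps : A)) ∈ {b : B D A | IsIntegral D b} := by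
    refine ⟨X ^ 2, monic_X_pow 2, ?_⟩
    rw [eval₂_X_pow, sq, Algebra.TensorProduct.tmul_mul_tmul, DualNumber.eps_mul_eps,
      TensorProduct.tmul_zero]
  rw [h1] at hb
  obtain ⟨a, ha⟩ := hb
  have h2 := congrArg ρ ha
  change ρ ((1 : K) ⊗ₜ[D] a) = _ at h2
  rw [ρ_tmul, ρ_tmul, DualNumber.snd_eps, one_smul, Algebra.smul_def, mul_one] at h2
  have hX : algebraMap D K X ≠ 0 := by
    rw [Ne, IsFractionRing.to_map_eq_zero_iff]
    exact X_ne_zero
  have h3 : algebraMap D K (a.snd * X) = 1 := by
    rw [map_mul, h2, inv_mul_cancel₀ hX]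
  have h4 : a.snd * (X : D) = 1 := by
    apply IsFractionRing.injective D K
    rw [h3, map_one]
  exact not_isUnit_X (IsUnit.of_mul_eq_one_right _ h4)

end Pool.Agent.Results.MP_f9f43c_al.DualNumbers
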